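import Pool.Agent.Lib.helper9.GsmC
import Pool.Agent.Lib.helper9.LKit
import Pool.Agent.Lib.helper10.NPMat

namespace Pool.Agent.Results.MP_28d887_lc.NPComplete

open Pool.Agent.Cx Gsm Nlt Polynomial List

/-- an agent's two preference lists, the main one first -/
abbrev Pref := List ℕ × List ℕ

/-- `a` comes before `b` in the preference list `l` -/
def Bef (l : List ℕ) (a b : ℕ) : Prop := l.idxOf a < l.idxOf b

/-- agent `x` of the side `L` prefers the pair `(a, b)` to the pair `(c, d)` -/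
def Lex (L : List Pref) (x a b c d : ℕ) : Prop :=
  Bef (L.getD x ([], [])).1 a c ∨ (a = c ∧ Bef (L.getD x ([], [])).2 b d)

/-- `n` agents, each with two strict orders of `0, ..., n-1` -/
def Side (n : ℕ) (L : List Pref) : Prop :=
  L.length = n ∧ ∀ p ∈ L, p.1.Perm (range n) ∧ p.2.Perm (range n)

/-- the triples `(m, w m, d m)` form a stable matching: no triple `(x, w y, d z)` blocks -/
def Stable {n : ℕ} (U W D : List Pref) (w d : Fin n ≃ Fin n) : Prop :=
  ¬ ∃ x y z : Fin n, Lex U x (w y) (d z) (w x) (d x) ∧ Lex W (w y) (d z) x (d y) y ∧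
    Lex D (d z) x (w y) z (w z)

/-- a lexicographically cyclic instance of size at least three with a stable matching -/
def Rec (I : List Pref × List Pref × List Pref) : Prop :=
  3 ≤ I.1.length ∧ Side I.1.length I.1 ∧ Side I.1.length I.2.1 ∧ Side I.1.length I.2.2 ∧
    ∃ w d : Fin I.1.length ≃ Fin I.1.length, Stable I.1 I.2.1 I.2.2 w d

def srt (n : ℕ) (r : ℕ → ℕ) : List ℕ := (range 10).flatMap fun k => (range n).filter fun j => r j = k

lemma srt_perm {n : ℕ} {r : ℕ → ℕ} (h : ∀ j, r j < 10) : (srt n r).Perm (range n) :=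
  (perm_ext_iff_of_nodup (nodup_flatMap.2 ⟨fun _ _ => nodup_range.filter _,
    nodup_range.imp fun e => by simp +contextual [Function.onFun, disjoint_left, e]⟩) nodup_range).2
    fun j => by simp [h]

lemma srt_le {n a b : ℕ} {r : ℕ → ℕ} (h : ∀ j, r j < 10) (hb : b < n) (e : Bef (srt n r) a b) :
    a ≠ b ∧ r a ≤ r b := by
  have p : (srt n r).Pairwise fun a b => r a ≤ r b := pairwise_flatMap.2
    ⟨fun _ _ => pairwise_of_forall_mem_list (by simp +contextual),
      pairwise_lt_range.imp fun e => by simp +contextual [e.le]⟩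
  have l := idxOf_lt_length_of_mem ((srt_perm h).mem_iff.2 (mem_range.2 hb))
  refine ⟨by rintro rfl; exact lt_irrefl _ e, ?_⟩
  simpa using pairwise_iff_getElem.1 p _ _ (e.trans l) l e

lemma srt_lt {n a b : ℕ} {r : ℕ → ℕ} (h : ∀ j, r j < 10) (ha : a < n) (e : r a < r b) :
    Bef (srt n r) a b := by
  have m := (srt_perm h).mem_iff.2 (mem_range.2 ha)
  refine lt_of_le_of_ne (not_lt.1 fun c => (srt_le h ha c).2.not_gt e) fun c => ?_
  rw [(idxOf_inj m).1 c] at e
  exact lt_irrefl _ e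

def verts (φ : List Cl) : List T :=
  (range (size φ + 1) ×ˢ range (12 * φ.length + 12) ×ˢ range 3 ×ˢ range 4).filter fun p => decide (ok φ p)

def pt (φ : List Cl) (j : ℕ) : T := (verts φ).getD j (0, 0, 0, 0)

def side (φ : List Cl) (g : ℕ) : List Pref := (verts φ).map fun p =>
  (srt (verts φ).length fun j => r1 φ g p (pt φ j), srt (verts φ).length fun j => r2 p (pt φ j))

def red (φ : List Cl) := (side φ 0, side φ 1, side φ 2)

section
variable {α : Type} [Enc α] {φ : α → List Cl} {i j k : α → ℕ} {p q : α → T} (g : ℕ)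

@[fun_prop] lemma pt_verts (h : PT φ) : PT fun a => verts (φ a) :=
  PT.comp (g := verts) (PT.filter (PP.decide (by unfold ok; fun_prop)) (by fun_prop)) h

@[fun_prop] lemma pt_lt (h : PT φ) (hi : PT i) : PT fun a => lt (φ a) g (i a) := by
  unfold lt lit; split_ifs <;> fun_prop

@[fun_prop] lemma pp_cl (h : PT φ) (hp : PT p) : PP fun a => Gsm.cl (φ a) g (p a) := by
  unfold Gsm.cl; fun_prop

@[fun_prop] lemma pp_acc (h : PT φ) (hp : PT p) (hq : PT q) : PP fun a => acc (φ a) g (p a) (q a) := by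
  unfold acc Fp; fun_prop

@[fun_prop] lemma pp_pol (h : PT φ) (hi : PT i) : PP fun a => pol (φ a) g (i a) := by
  unfold pol; fun_prop

@[fun_prop] lemma pt_rk (h : PT φ) (hi : PT i) (hj : PT j) : PT fun a => rk (φ a) g (i a) (j a) :=
  PP.ite (by fun_prop) (by fun_prop) (PP.ite (by fun_prop) (by fun_prop) (by fun_prop))

@[fun_prop] lemma pt_loc (hi : PT i) (hj : PT j) (hk : PT k) (hp : PT p) :
    PT fun a => Gsm.loc (i a) (j a) (k a) (p a) := PP.ite (by fun_prop) (by fun_prop) (by fun_prop)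

@[fun_prop] lemma pt_tb (hi : PT i) (hj : PT j) (hk : PT k) : PT fun a => tb (i a) (j a) (k a) := by
  unfold tb; fun_prop

@[fun_prop] lemma pt_r1 (h : PT φ) (hp : PT p) (hq : PT q) : PT fun a => r1 (φ a) g (p a) (q a) :=
  PP.ite (by fun_prop) (by fun_prop) (by fun_prop)

@[fun_prop] lemma pt_r2 (hp : PT p) (hq : PT q) : PT fun a => r2 (p a) (q a) := by
  unfold r2; fun_prop

@[fun_prop] lemma pt_pt (h : PT φ) (hi : PT i) : PT fun a => pt (φ a) (i a) := by
  unfold pt; fun_prop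

lemma pt_srt {r : α → ℕ → ℕ} (hi : PT i) (hr : PT fun x : α × ℕ => r x.1 x.2) :
    PT fun a => srt (i a) (r a) := by unfold srt; fun_prop

lemma side_pt : PT fun φ => side φ g :=
  PT.map ((pt_srt (by fun_prop) (by fun_prop)).pair (pt_srt (by fun_prop) (by fun_prop))) (by fun_prop)

end

lemma r1_lt (φ : List Cl) (g : ℕ) (p q : T) : r1 φ g p q < 10 := by
  unfold r1 rk tb; split_ifs <;> omega

lemma r2_lt (p q : T) : r2 p q < 10 := by unfold r2 tb; omega

lemma len (φ : List Cl) (g : ℕ) : (side φ g).length = (verts φ).length := length_map _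

lemma side_ok (φ : List Cl) (g : ℕ) : Side (side φ 0).length (side φ g) := by
  simp only [Side, len, true_and]
  intro _ h
  obtain ⟨p, -, rfl⟩ := mem_map.1 h
  exact ⟨srt_perm fun _ => r1_lt _ _ _ _, srt_perm fun _ => r2_lt _ _⟩

section
variable {φ : List Cl} {g : ℕ} {x a b c d : Fin (side φ 0).length}

lemma lt' (x : Fin (side φ 0).length) : x.1 < (verts φ).length := len φ 0 ▸ x.2

lemma get : (side φ g).getD x ([], []) = (srt (verts φ).length fun j => r1 φ g (pt φ x) (pt φ j),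
    srt (verts φ).length fun j => r2 (pt φ x) (pt φ j)) := by simp [side, pt, lt' x]

lemma pt_inj (e : pt φ a = pt φ b) : a = b := by
  simp only [pt, getD_eq_getElem _ _ (lt' _)] at e
  exact Fin.ext (((nodup_range.product (nodup_range.product (nodup_range.product nodup_range))).filter
    _).getElem_inj_iff.1 e)

lemma mem_verts {p : T} : p ∈ verts φ ↔ ok φ p := by
  obtain ⟨a, b, c, d⟩ := p
  simp only [verts, mem_filter, mem_product, mem_range, decide_eq_true_eq]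
  simp only [ok]; omega

lemma pt_ok : ok φ (pt φ x) := by
  rw [pt, getD_eq_getElem _ _ (lt' _)]; exact mem_verts.1 (getElem_mem _)

lemma pt_sur : ∃ f : T → Fin (side φ 0).length, (∀ p, ok φ p → pt φ (f p) = p) ∧ ∀ x, f (pt φ x.1) = x := by
  have : ∀ p, ∃ x : Fin (side φ 0).length, ok φ p → pt φ x = p := fun p => by
    obtain ⟨i, hi, e⟩ := getElem_of_mem (mem_verts (φ := φ) (p := if ok φ p then p else (0, 0, 0, 0)).2
      (by split_ifs; exacts [‹_›, ok0.2 (by omega)]))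
    exact ⟨⟨i, len φ 0 ▸ hi⟩, fun o => by simpa [pt, hi, o] using e⟩
  choose f hf using this
  exact ⟨f, hf, fun x => pt_inj (hf _ pt_ok)⟩

lemma lex_of (e : S φ g (pt φ x) (pt φ a) (pt φ c) (pt φ b) (pt φ d)) : Lex (side φ g) x a b c d := by
  rw [Lex, get]
  exact e.imp (srt_lt (fun _ => r1_lt _ _ _ _) (lt' a)) fun e =>
    ⟨by rw [pt_inj e.1], srt_lt (fun _ => r2_lt _ _) (lt' b) e.2⟩

lemma of_lex (e : Lex (side φ g) x a b c d) : W φ g (pt φ x) (pt φ a) (pt φ c) (pt φ b) (pt φ d) := by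
  rw [Lex, get] at e
  exact e.imp (fun e => (srt_le (fun _ => r1_lt _ _ _ _) (lt' c) e).imp_left fun e f =>
    e (by rw [pt_inj f])) fun e => ⟨by rw [e.1], (srt_le (fun _ => r2_lt _ _) (lt' d) e.2).imp_left
      fun e f => e (by rw [pt_inj f])⟩

end

lemma hard : Hard Rec := hard_sat3.red (r := red) ((side_pt 0).pair ((side_pt 1).pair (side_pt 2)))
  fun φ => by
  obtain ⟨f, f1, f2⟩ := pt_sur (φ := φ)
  constructor
  · intro h
    obtain ⟨a, b, c, m1, m2, m3, n⟩ := of_sat h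
    have o : ∀ x : Fin (side φ 0).length, ok φ (pt φ x) := fun _ => pt_ok
    refine ⟨?_, side_ok φ 0, side_ok φ 1, side_ok φ 2, ⟨fun x => f (a (pt φ x)),
      fun x => f (c (b (pt φ x))), fun x => ?_, fun x => ?_⟩, ⟨fun x => f (b (a (pt φ x))),
      fun x => f (c (pt φ x)), fun x => ?_, fun x => ?_⟩, ?_⟩
    · simpa [red] using Fintype.card_le_of_injective (fun i : Fin 3 => f (0, i, 0, 0)) fun i j e => by
        have := congrArg (fun x => pt φ x.1) e
        have k : ∀ i : Fin 3, ok φ (0, i, 0, 0) := fun i => ok0.2 (by omega)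
        simpa [f1 _ (k _), Fin.ext_iff] using this
    · simp only [f1 _ (m1 _ (o x)).1, (m1 _ (o x)).2, f2]
    · simp only [f1 _ (m3 _ (m2 _ (o x)).1).1, (m2 _ (o x)).2, f2]
    · simp only [f1 _ (m2 _ (m1 _ (o x)).1).1, (m1 _ (o x)).2, f2]
    · simp only [f1 _ (m3 _ (o x)).1, (m3 _ (o x)).2, f2]
    · rintro ⟨x, y, z, e1, e2, e3⟩
      have e1 := of_lex e1
      have e2 := of_lex e2
      have e3 := of_lex e3
      simp only [Equiv.coe_fn_mk, f1 _ (m1 _ (o _)).1, f1 _ (m2 _ (m1 _ (o _)).1).1] at e1 e2 e3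
      exact n _ _ _ (o x) (m1 _ (o y)).1 (m2 _ (m1 _ (o z)).1).1
        ⟨e1, by rwa [(m1 _ (o y)).2], by rwa [(m1 _ (o z)).2]⟩
  · rintro ⟨-, -, -, -, w, d, h⟩
    refine to_sat (a := fun p => pt φ (w (f p))) (b := fun p => pt φ (d (w.symm (f p))))
      (c := fun p => pt φ (d.symm (f p))) (fun p o => ⟨pt_ok, by simp [f2, f1 p o]⟩)
      (fun p o => ⟨pt_ok, by simp [f2, f1 p o]⟩) (fun p o => ⟨pt_ok, by simp [f2, f1 p o]⟩)
      fun p q s o o' o'' e => h ⟨f p, w.symm (f q), d.symm (f s), lex_of ?_, lex_of ?_, lex_of ?_⟩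
    · simpa [f1, f2, o, o', o''] using e.1
    · simpa [f1, f2, o, o', o''] using e.2.1
    · simpa [f1, f2, o, o', o''] using e.2.2

def pm (n : ℕ) (l : List ℕ) : Prop := l.Nodup ∧ (¬ ∃ x ∈ l, ¬ x < n) ∧ ¬ ∃ x < n, x ∉ l

lemma pm_iff {n : ℕ} {l : List ℕ} : pm n l ↔ l.Perm (range n) :=
  ⟨fun ⟨a, b, c⟩ => (perm_ext_iff_of_nodup a nodup_range).2 fun x => by grind,
    fun h => ⟨h.nodup_iff.2 nodup_range, by simp [h.mem_iff], by simp [h.mem_iff]⟩⟩

def sd (n : ℕ) (L : List Pref) : Prop := L.length = n ∧ ¬ ∃ p ∈ L, ¬ (pm n p.1 ∧ pm n p.2)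

lemma sd_iff {n : ℕ} {L : List Pref} : sd n L ↔ Side n L := by simp [sd, Side, pm_iff]

def ver (z : (List Pref × List Pref × List Pref) × List ℕ × List ℕ) : Prop :=
  3 ≤ z.1.1.length ∧ sd z.1.1.length z.1.1 ∧ sd z.1.1.length z.1.2.1 ∧ sd z.1.1.length z.1.2.2 ∧
  pm z.1.1.length z.2.1 ∧ pm z.1.1.length z.2.2 ∧
  ¬ ∃ x < z.1.1.length, ∃ y < z.1.1.length, ∃ u < z.1.1.length,
    Lex z.1.1 x (z.2.1.getD y 0) (z.2.2.getD u 0) (z.2.1.getD x 0) (z.2.2.getD x 0) ∧
    Lex z.1.2.1 (z.2.1.getD y 0) (z.2.2.getD u 0) x (z.2.2.getD y 0) y ∧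
    Lex z.1.2.2 (z.2.2.getD u 0) x (z.2.1.getD y 0) u (z.2.1.getD u 0)

lemma to_list {n : ℕ} (w : Fin n ≃ Fin n) : ∃ l, pm n l ∧ size l ≤ n * (2 * n + 2) + 1 ∧
    ∀ x : Fin n, l.getD x 0 = w x := by
  refine ⟨ofFn fun x => (w x).1, ⟨nodup_ofFn.2 (Fin.val_injective.comp w.injective), by simp,
    fun ⟨x, a, b⟩ => b (mem_ofFn.2 ⟨w.symm ⟨x, a⟩, by simp⟩)⟩, ?_, by simp⟩
  simpa using size_list_le (ofFn fun x => (w x).1) (2 * n + 1) fun x hx => by
    obtain ⟨a, rfl⟩ := mem_ofFn.1 hx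
    simp

lemma of_list {n : ℕ} {l : List ℕ} (h : pm n l) : ∃ w : Fin n ≃ Fin n, ∀ x : Fin n, l.getD x 0 = w x := by
  have e : l.length = n := by simpa using (pm_iff.1 h).length_eq
  subst e
  exact ⟨.ofBijective (fun x => ⟨l[x], not_not.1 fun c => h.2.1 ⟨_, getElem_mem _, c⟩⟩)
    (Finite.injective_iff_bijective.1 fun a b e => Fin.ext (h.1.getElem_inj_iff.1 (Fin.mk.inj e))),
    by simp⟩

theorem result : NPComplete (Lang Rec) := by
  classical
  refine ⟨inNP_Lang (V := fun z => decide (ver z)) (PP.decide ?_) (2 * (X * (2 * X + 2)) + 3)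
    (fun I ⟨a, b, c, d, w, u, h⟩ => ?_) fun I z h => ?_, hard.npHard⟩
  · have h1 : PP fun x : ℕ × List ℕ => pm x.1 x.2 := by unfold pm; fun_prop
    have h2 : PP fun x : ℕ × List Pref => sd x.1 x.2 := by unfold sd; fun_prop
    have h3 : PP fun x : List Pref × ℕ × ℕ × ℕ × ℕ × ℕ =>
        Lex x.1 x.2.1 x.2.2.1 x.2.2.2.1 x.2.2.2.2.1 x.2.2.2.2.2 := by unfold Lex Bef; fun_prop
    unfold ver
    fun_prop
  · obtain ⟨k, k1, k2, k3⟩ := to_list w
    obtain ⟨l, l1, l2, l3⟩ := to_list u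
    refine ⟨(k, l), ?_, decide_eq_true ⟨a, sd_iff.2 b, sd_iff.2 c, sd_iff.2 d, k1, l1,
      fun ⟨x, hx, y, hy, z, hz, e⟩ => h ⟨⟨x, hx⟩, ⟨y, hy⟩, ⟨z, hz⟩, by simpa only [← k3, ← l3]⟩⟩⟩
    have e : I.1.length ≤ size I := by
      have := length_lt_size I.1; obtain ⟨_, _⟩ := I; simp at *; omega
    have := Nat.mul_le_mul e (show 2 * I.1.length + 2 ≤ 2 * size I + 2 by omega)
    simp; omega
  · obtain ⟨a, b, c, d, k, l, h⟩ := of_decide_eq_true h
    obtain ⟨w, hw⟩ := of_list k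
    obtain ⟨u, hu⟩ := of_list l
    exact ⟨a, sd_iff.1 b, sd_iff.1 c, sd_iff.1 d, w, u, fun ⟨x, y, z, e⟩ =>
      h ⟨x, x.2, y, y.2, z, z.2, by simpa only [hw, hu]⟩⟩

end Pool.Agent.Results.MP_28d887_lc.NPComplete
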